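import Pool.Agent.Lib_MP_4009a7_al.Cases

/-!
The minimal non-one-generated soluble hereditary formations of finite groups.
-/

namespace Pool.Agent.Results.MP_4009a7_al.Classification

open Pool.Agent.HForm

/-- A class `F` of groups is a soluble, minimal non-one-generated hereditary formation if and only if it is one of
1. the formation of all finite abelian `p`-groups,
2. `A_p A_p`,
3. `A_p A_q A_r` for three different primes,
4. `A_p T_q` for two different primes,
5. an exceptional formation: a hereditary formation of `p`-groups of bounded exponent and unbounded derived length, all of whose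
   proper hereditary subformations have bounded nilpotency class. -/
theorem result (F : GClass) : (MinNonOneGen F ∧ Soluble F) ↔
    (∃ p : ℕ, p.Prime ∧ Same F (AbP p)) ∨
    (∃ p : ℕ, p.Prime ∧ Same F (A2 p p)) ∨
    (∃ p q r : ℕ, p.Prime ∧ q.Prime ∧ r.Prime ∧ p ≠ q ∧ p ≠ r ∧ q ≠ r ∧ Same F (A3 p q r)) ∨
    (∃ p q : ℕ, p.Prime ∧ q.Prime ∧ p ≠ q ∧ Same F (AT p q)) ∨
    Exotic F :=
  classification F

end Pool.Agent.Results.MP_4009a7_al.Classification
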