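import Pool.Agent.Lib_MP_4009a7_al.Crit2

/-!
A criterion for one-generated soluble hereditary formations.
-/

namespace Pool.Agent.Results.MP_4009a7_al.Criterion

open Pool.Agent.HForm

/-- A soluble hereditary formation is one-generated if and only if it contains groups of prime order `p` for only finitely many primes `p`, and it does not
contain the formation of all finite abelian `p`-groups, nor `A_p A_p`, `A_p A_q A_r`, `A_p T_q` (for different primes), nor an exceptional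
formation of `p`-groups. -/
theorem result (F : GClass) (hF : IsFormation F) (hh : Hereditary F) (hs : Soluble F) :
    OneGen F ↔ {p : ℕ | p.Prime ∧ F (Multiplicative (ZMod p))}.Finite ∧
      (∀ p : ℕ, p.Prime → ¬ Le (AbP p) F) ∧
      (∀ p : ℕ, p.Prime → ¬ Le (A2 p p) F) ∧
      (∀ p q r : ℕ, p.Prime → q.Prime → r.Prime → p ≠ q → p ≠ r → q ≠ r → ¬ Le (A3 p q r) F) ∧
      (∀ p q : ℕ, p.Prime → q.Prime → p ≠ q → ¬ Le (AT p q) F) ∧
      ¬ ∃ X : GClass, Exotic X ∧ Le X F := by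
  rw [criterion hF hh hs]
  refine and_congr Iff.rfl ?_
  have same : ∀ X : GClass, Same X X := fun X _ _ => Iff.rfl
  constructor
  · intro h
    refine ⟨fun p hp hX => h ⟨_, Or.inl ⟨p, hp, same _⟩, hX⟩,
      fun p hp hX => h ⟨_, Or.inr (Or.inl ⟨p, hp, same _⟩), hX⟩,
      fun p q r hp hq hr h1 h2 h3 hX =>
        h ⟨_, Or.inr (Or.inr (Or.inl ⟨p, q, r, hp, hq, hr, h1, h2, h3, same _⟩)), hX⟩,
      fun p q hp hq h1 hX => h ⟨_, Or.inr (Or.inr (Or.inr (Or.inl ⟨p, q, hp, hq, h1, same _⟩))), hX⟩,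
      fun ⟨X, hX, hXF⟩ => h ⟨X, Or.inr (Or.inr (Or.inr (Or.inr hX))), hXF⟩⟩
  · rintro ⟨h1, h2, h3, h4, h5⟩ ⟨X, hX, hXF⟩
    have le : ∀ {Y : GClass}, Same X Y → Le Y F := fun {Y} hs G _ hG => hXF G ((hs G).2 hG)
    rcases hX with ⟨p, hp, hs⟩ | ⟨p, hp, hs⟩ | ⟨p, q, r, hp, hq, hr, a, b, c, hs⟩ | ⟨p, q, hp, hq, a, hs⟩ | hX
    · exact h1 p hp (le hs)
    · exact h2 p hp (le hs)
    · exact h3 p q r hp hq hr a b c (le hs)
    · exact h4 p q hp hq a (le hs)
    · exact h5 ⟨X, hX, hXF⟩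

end Pool.Agent.Results.MP_4009a7_al.Criterion
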